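import Pool.Agent.V1187.Horn2

/-!
# Neumann eigenvalue ratios with only the inner domain convex

The exponential horn of length `n` over the plane has `μ_1 ≥ 1/30` for every `n`, and contains a convex
thin rectangle of length `n`, whose eigenvalues `μ_k` tend to zero.
-/

set_option autoImplicit false

open MeasureTheory Set Filter Topology

namespace Pool.Agent.Results.MP_770ffc_an.HornVanishing

open Pool.Agent.V1187.NB Pool.Agent.V1187.HN

/-- In the plane, the infimum of the ratios `μ_k(Ω₁) / μ_k(Ω₂)` over pairs `Ω₁ ⊆ Ω₂` of bounded
Lipschitz domains with `Ω₁` convex is `0`, for every `k ≥ 1`. -/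
theorem result : ∀ k : ℕ, 1 ≤ k → cTilde k 2 = 0 :=
  fun _ hk => cTilde_zero hk

end Pool.Agent.Results.MP_770ffc_an.HornVanishing
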